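import Pool.Agent.L7h26.TN.Stm

set_option autoImplicit false

/-!
# Project TN, part FAC: a factorisation into factors that are reciprocal up to sign
-/

namespace Pool.Agent.L7h76.TN

open Polynomial
open Pool.Agent.L7h26.TN

theorem rev_natDegree {f : ℤ[X]} (h : f.coeff 0 ≠ 0) : f.reverse.natDegree = f.natDegree := by
  rw [reverse_natDegree, natTrailingDegree_eq_zero.2 (Or.inr h), Nat.sub_zero]

theorem rev_lead {f : ℤ[X]} (h : f.coeff 0 ≠ 0) : f.reverse.leadingCoeff = f.coeff 0 := by
  rw [reverse_leadingCoeff, trailingCoeff, natTrailingDegree_eq_zero.2 (Or.inr h)]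

theorem rev_rev {f : ℤ[X]} (h : f.coeff 0 ≠ 0) : f.reverse.reverse = f := by
  ext k
  rw [coeff_reverse, coeff_reverse, rev_natDegree h, revAt_invol]

theorem coeff0_of_dvd {f g : ℤ[X]} (h : g.coeff 0 ≠ 0) (hd : f ∣ g) : f.coeff 0 ≠ 0 := by
  obtain ⟨k, rfl⟩ := hd
  rw [mul_coeff_zero] at h
  exact left_ne_zero_of_mul h

theorem rev_unit {f : ℤ[X]} (h : IsUnit f) : IsUnit f.reverse := by
  obtain ⟨g, hg⟩ := h.exists_right_inv
  have h1 := congrArg reverse hg
  rw [reverse_mul_of_domain] at h1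
  have h2 : (1 : ℤ[X]).reverse = 1 := by
    have := reverse_C (1 : ℤ)
    simpa using this
  rw [h2] at h1
  exact IsUnit.of_mul_eq_one _ h1

theorem rev_unit' {f : ℤ[X]} (h0 : f.coeff 0 ≠ 0) (h : IsUnit f.reverse) : IsUnit f := by
  have := rev_unit h
  rwa [rev_rev h0] at this

theorem rev_irr {q : ℤ[X]} (h0 : q.coeff 0 ≠ 0) (hq : Irreducible q) : Irreducible q.reverse := by
  constructor
  · intro h
    exact hq.not_isUnit (rev_unit' h0 h)
  · intro a b hab
    have hc : q.reverse.coeff 0 ≠ 0 := by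
      rw [coeff_zero_reverse]
      exact leadingCoeff_ne_zero.2 hq.ne_zero
    have ha : a.coeff 0 ≠ 0 := coeff0_of_dvd hc ⟨b, hab⟩
    have hb : b.coeff 0 ≠ 0 := coeff0_of_dvd hc ⟨a, by rw [hab, mul_comm]⟩
    have h1 := congrArg reverse hab
    rw [rev_rev h0, reverse_mul_of_domain] at h1
    rcases hq.isUnit_or_isUnit h1 with h | h
    · exact Or.inl (rev_unit' ha h)
    · exact Or.inr (rev_unit' hb h)

theorem coeff_S (n k : ℕ) : (S n).coeff k =
    ((n : ℤ) - 1) * ((if k = n + 1 then 1 else 0) - (if k = 0 then 1 else 0)) -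
      ((n : ℤ) + 1) * ((if k = n then 1 else 0) - (if 1 = k then 1 else 0)) := by
  unfold S
  rw [coeff_sub, coeff_C_mul, coeff_C_mul, coeff_sub, coeff_sub, coeff_X_pow, coeff_one,
    coeff_X_pow, coeff_X]

theorem natDegree_S {n : ℕ} (hn : 4 ≤ n) : (S n).natDegree = n + 1 := by
  refine natDegree_eq_of_le_of_coeff_ne_zero (natDegree_le_iff_coeff_eq_zero.2 fun k hk => ?_) ?_
  · rw [coeff_S, if_neg (by omega), if_neg (by omega), if_neg (by omega), if_neg (by omega)]
    ring
  · rw [coeff_S, if_pos rfl, if_neg (by omega), if_neg (by omega), if_neg (by omega)]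
    have : (4 : ℤ) ≤ n := by exact_mod_cast hn
    intro h
    linarith

theorem rev_S {n : ℕ} (hn : 4 ≤ n) : (S n).reverse = -(S n) := by
  ext k
  rw [coeff_reverse, natDegree_S hn, coeff_neg]
  by_cases hk : k ≤ n + 1
  · rw [revAt_le hk, coeff_S, coeff_S]
    have e1 : (n + 1 - k = n + 1) ↔ (k = 0) := by omega
    have e2 : (n + 1 - k = 0) ↔ (k = n + 1) := by omega
    have e3 : (n + 1 - k = n) ↔ (1 = k) := by omega
    have e4 : (1 = n + 1 - k) ↔ (k = n) := by omega
    simp only [e1, e2, e3, e4]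
    ring
  · rw [revAt_eq_self_of_lt (by omega), coeff_S, if_neg (by omega), if_neg (by omega),
      if_neg (by omega), if_neg (by omega)]
    ring

theorem rev_X1 : (X - 1 : ℤ[X]).reverse = -(X - 1) := by
  have h : (X - 1 : ℤ[X]).natDegree = 1 := by
    simpa using natDegree_X_sub_C (1 : ℤ)
  ext k
  rw [coeff_reverse, h]
  rcases k with _ | _ | k
  · rw [revAt_le (by omega)]
    simp [coeff_one]
  · rw [revAt_le (by omega)]
    simp [coeff_one]
  · rw [revAt_eq_self_of_lt (by omega)]
    simp [coeff_X, coeff_one]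

theorem prim_S {n : ℕ} (hn : 4 ≤ n) (he : Even n) {c : ℤ} (h : C c ∣ S n) : IsUnit c := by
  rw [C_dvd_iff_dvd_coeff] at h
  have h1 := h (n + 1)
  have h2 := h 1
  rw [coeff_S, if_pos rfl, if_neg (by omega), if_neg (by omega), if_neg (by omega)] at h1
  rw [coeff_S, if_neg (by omega), if_neg (by omega), if_neg (by omega), if_pos rfl] at h2
  obtain ⟨m, rfl⟩ := he
  have h3 : c ∣ 2 := by
    have := dvd_sub h2 h1
    ring_nf at this
    exact this
  have h4 : c ∣ 1 := by
    have h5 : c ∣ 2 * (m : ℤ) := Dvd.dvd.mul_right h3 _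
    have := dvd_sub h5 h1
    push_cast at this
    ring_nf at this
    exact this
  exact isUnit_of_dvd_one h4

theorem s_FAC : S_FAC := by
  intro n F he hn hF hirr
  have hX : (X - 1 : ℤ[X]) ^ 3 ≠ 0 := pow_ne_zero _ (by
    intro h
    have := congrArg (fun p => coeff p 1) h
    simp [coeff_one] at this)
  have hmon : (X - 1 : ℤ[X]).Monic := by simpa using monic_X_sub_C (1 : ℤ)
  have hn4 : (4 : ℤ) ≤ n := by exact_mod_cast hn
  have hS0 : S n ≠ 0 := by
    intro h
    have := natDegree_S hn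
    rw [h, natDegree_zero] at this
    omega
  have hF0 : F ≠ 0 := by
    rintro rfl
    rw [mul_zero] at hF
    exact hS0 hF.symm
  have hFc : F.coeff 0 = (n : ℤ) - 1 := by
    have h1 := congrArg (fun p => coeff p 0) hF
    simp only [mul_coeff_zero] at h1
    rw [coeff_S, if_neg (by omega), if_pos rfl, if_neg (by omega), if_neg (by omega)] at h1
    have h2 : ((X - 1 : ℤ[X]) ^ 3).coeff 0 = -1 := by
      rw [coeff_zero_eq_eval_zero]
      simp
    rw [h2] at h1
    linarith
  have hFl : F.leadingCoeff = (n : ℤ) - 1 := by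
    have h0 : (S n).leadingCoeff = (n : ℤ) - 1 := by
      rw [leadingCoeff, natDegree_S hn, coeff_S, if_pos rfl, if_neg (by omega), if_neg (by omega),
        if_neg (by omega)]
      ring
    have h1 := congrArg leadingCoeff hF
    rw [leadingCoeff_mul, (hmon.pow 3).leadingCoeff, one_mul, h0] at h1
    exact h1
  have hc0 : F.coeff 0 ≠ 0 := by
    rw [hFc]
    intro h
    linarith
  have hFd : 1 ≤ F.natDegree := by
    have h1 := congrArg natDegree hF
    rw [natDegree_mul hX hF0, natDegree_S hn, hmon.natDegree_pow] at h1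
    have h2 : (X - 1 : ℤ[X]).natDegree = 1 := by
      simpa using natDegree_X_sub_C (1 : ℤ)
    rw [h2] at h1
    omega
  have hFr : F.reverse = F := by
    have h1 := congrArg reverse hF
    rw [reverse_mul_of_domain, rev_S hn, ← hF] at h1
    have h2 : ((X - 1 : ℤ[X]) ^ 3).reverse = -(X - 1) ^ 3 := by
      rw [pow_succ, pow_two, reverse_mul_of_domain, reverse_mul_of_domain, rev_X1]
      ring
    rw [h2, neg_mul, neg_inj] at h1
    exact mul_left_cancel₀ hX h1
  -- constant factors are units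
  have hunit : ∀ k : ℤ[X], k ∣ F → k.natDegree = 0 → IsUnit k := by
    intro k hk hd
    rw [eq_C_of_natDegree_eq_zero hd] at hk ⊢
    exact isUnit_C.2 (prim_S hn he (hk.trans ⟨(X - 1) ^ 3, by rw [← hF, mul_comm]⟩))
  have hprim : F.IsPrimitive := by
    intro c hc
    exact prim_S hn he (hc.trans ⟨(X - 1) ^ 3, by rw [← hF, mul_comm]⟩)
  have hirr' : ¬ Irreducible F := fun h =>
    hirr ((IsPrimitive.Int.irreducible_iff_irreducible_map_cast hprim).1 h)
  have hnu : ¬ IsUnit F := by
    intro h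
    have := natDegree_eq_zero_of_isUnit h
    omega
  -- a complementary factor of a reciprocal factor is reciprocal
  have hcomp : ∀ g h : ℤ[X], F = g * h → g.leadingCoeff.natAbs = (g.coeff 0).natAbs →
      h.leadingCoeff.natAbs = (h.coeff 0).natAbs := by
    intro g h hgh h1
    have h2 : g.leadingCoeff * h.leadingCoeff = g.coeff 0 * h.coeff 0 := by
      rw [← leadingCoeff_mul, ← mul_coeff_zero, ← hgh, hFl, hFc]
    have h3 := congrArg Int.natAbs h2
    rw [Int.natAbs_mul, Int.natAbs_mul, h1] at h3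
    refine Nat.eq_of_mul_eq_mul_left (Int.natAbs_pos.2 ?_) h3
    exact coeff0_of_dvd hc0 ⟨h, hgh⟩
  obtain ⟨q, hq, h, hqh⟩ := WfDvdMonoid.exists_irreducible_factor hnu hF0
  have hq0 : q.coeff 0 ≠ 0 := coeff0_of_dvd hc0 ⟨h, hqh⟩
  have hqd : 1 ≤ q.natDegree := by
    by_contra hc
    exact hq.not_isUnit (hunit q ⟨h, hqh⟩ (by omega))
  have hhd : 1 ≤ h.natDegree := by
    by_contra hc
    have hu := hunit h ⟨q, by rw [hqh, mul_comm]⟩ (by omega)
    apply hirr'
    rw [hqh]
    exact (associated_mul_unit_right q h hu).irreducible hq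
  have hrl : q.reverse.leadingCoeff = q.coeff 0 := rev_lead hq0
  have hrc : q.reverse.coeff 0 = q.leadingCoeff := coeff_zero_reverse q
  by_cases hass : Associated q.reverse q
  · refine ⟨q, h, by rw [← hqh]; exact hF, hqd, hhd, Or.inl ?_⟩
    have h1 : q.leadingCoeff.natAbs = (q.coeff 0).natAbs := by
      obtain ⟨u, hu⟩ := hass
      obtain ⟨c, hc, hcu⟩ := isUnit_iff.1 u.isUnit
      have h2 := congrArg leadingCoeff hu
      rw [leadingCoeff_mul, hrl, ← hcu, leadingCoeff_C] at h2
      rw [← h2, Int.natAbs_mul, Int.isUnit_iff_natAbs_eq.1 hc, mul_one]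
    exact ⟨h1, hcomp q h hqh h1⟩
  · have hdv : q.reverse ∣ q * h := by
      refine ⟨h.reverse, ?_⟩
      rw [← reverse_mul_of_domain, ← hqh, hFr]
    have hpr : Prime q.reverse := (rev_irr hq0 hq).prime
    rcases hpr.dvd_or_dvd hdv with hd | hd
    · exact absurd ((rev_irr hq0 hq).associated_of_dvd hq hd) hass
    obtain ⟨k, hk⟩ := hd
    have hh0 : h ≠ 0 := by
      rintro rfl
      rw [natDegree_zero] at hhd
      omega
    have hk0 : k ≠ 0 := by
      rintro rfl
      rw [mul_zero] at hk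
      exact hh0 hk
    by_cases hkd : k.natDegree = 0
    · refine ⟨q, h, by rw [← hqh]; exact hF, hqd, hhd, Or.inr ?_⟩
      rw [hk, natDegree_mul hpr.ne_zero hk0, hkd, rev_natDegree hq0, add_zero]
    · have hF2 : F = (q * q.reverse) * k := by rw [hqh, hk, mul_assoc]
      have h1 : (q * q.reverse).leadingCoeff.natAbs = ((q * q.reverse).coeff 0).natAbs := by
        rw [leadingCoeff_mul, mul_coeff_zero, hrl, hrc, mul_comm]
      refine ⟨q * q.reverse, k, by rw [← hF2]; exact hF, ?_, by omega, Or.inl ⟨h1, hcomp _ _ hF2 h1⟩⟩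
      rw [natDegree_mul hq.ne_zero hpr.ne_zero]
      omega

end Pool.Agent.L7h76.TN
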