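import Pool.Agent.L7h55.TN.Stm2

set_option autoImplicit false

/-!
# Project TN (helper55), part GAU: Gauss
-/

namespace Pool.Agent.L7h76.TN

open Polynomial
open Pool.Agent.L7h55.TN

theorem SP_eq (A : ℕ) : SP (2 * A + 1) = C 2 * T A := by
  unfold SP T
  have h1 : (((2 * A + 1 : ℕ) : ℤ) - 1) = 2 * (A : ℤ) := by push_cast; ring
  have h2 : (((2 * A + 1 : ℕ) : ℤ) + 1) = 2 * ((A : ℤ) + 1) := by push_cast; ring
  rw [h1, h2, C_mul, C_mul, show 2 * A + 1 + 1 = 2 * A + 2 from rfl]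
  ring

theorem coeff_T (A k : ℕ) : (T A).coeff k =
    (A : ℤ) * ((if k = 2 * A + 2 then 1 else 0) - (if k = 0 then 1 else 0)) -
      ((A : ℤ) + 1) * ((if k = 2 * A + 1 then 1 else 0) - (if 1 = k then 1 else 0)) := by
  unfold T
  rw [coeff_sub, coeff_C_mul, coeff_C_mul, coeff_sub, coeff_sub, coeff_X_pow, coeff_one,
    coeff_X_pow, coeff_X]

theorem natDegree_T {A : ℕ} (hA : 2 ≤ A) : (T A).natDegree = 2 * A + 2 := by
  refine natDegree_eq_of_le_of_coeff_ne_zero (natDegree_le_iff_coeff_eq_zero.2 fun k hk => ?_) ?_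
  · rw [coeff_T, if_neg (by omega), if_neg (by omega), if_neg (by omega), if_neg (by omega)]
    ring
  · rw [coeff_T, if_pos rfl, if_neg (by omega), if_neg (by omega), if_neg (by omega)]
    have : (2 : ℤ) ≤ A := by exact_mod_cast hA
    intro h
    linarith

theorem lead_T {A : ℕ} (hA : 2 ≤ A) : (T A).leadingCoeff = A := by
  rw [leadingCoeff, natDegree_T hA, coeff_T, if_pos rfl, if_neg (by omega), if_neg (by omega),
    if_neg (by omega)]
  ring

theorem prim_T {A : ℕ} (hA : 2 ≤ A) {c : ℤ} (h : C c ∣ T A) : IsUnit c := by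
  rw [C_dvd_iff_dvd_coeff] at h
  have h1 := h (2 * A + 2)
  have h2 := h 1
  rw [coeff_T, if_pos rfl, if_neg (by omega), if_neg (by omega), if_neg (by omega)] at h1
  rw [coeff_T, if_neg (by omega), if_neg (by omega), if_neg (by omega), if_pos rfl] at h2
  have h3 := dvd_sub h2 h1
  ring_nf at h3
  exact isUnit_of_dvd_one h3

theorem monic_L4 : L4.Monic := by
  unfold L4
  have h1 : (X - 1 : ℤ[X]).Monic := by simpa using monic_X_sub_C (1 : ℤ)
  have h2 : (X + 1 : ℤ[X]).Monic := by simpa using monic_X_add_C (1 : ℤ)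
  exact (h1.pow 3).mul h2

theorem natDegree_L4 : L4.natDegree = 4 := by
  unfold L4
  have h1 : (X - 1 : ℤ[X]).Monic := by simpa using monic_X_sub_C (1 : ℤ)
  have h2 : (X + 1 : ℤ[X]).Monic := by simpa using monic_X_add_C (1 : ℤ)
  have h3 : (X - 1 : ℤ[X]).natDegree = 1 := by simpa using natDegree_X_sub_C (1 : ℤ)
  have h4 : (X + 1 : ℤ[X]).natDegree = 1 := by simpa using natDegree_X_add_C (1 : ℤ)
  rw [(h1.pow 3).natDegree_mul h2, h1.natDegree_pow, h3, h4]

theorem map_L4 : L4.map (Int.castRingHom ℚ) = (X - 1) ^ 3 * (X + 1) := by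
  unfold L4
  simp

theorem s_GAU : S_GAU := by
  intro A P hA hP hirr
  have hA2 : (2 : ℤ) ≤ A := by exact_mod_cast hA
  rw [← map_L4, SP_eq, Polynomial.map_mul, map_C] at hP
  have e2 : (Int.castRingHom ℚ) 2 = 2 := by simp
  rw [e2] at hP
  have hm0 : L4.map (Int.castRingHom ℚ) ≠ 0 := (monic_L4.map _).ne_zero
  have hhalf : (C (1 / 2 : ℚ)) * C 2 = (1 : ℚ[X]) := by
    rw [← C_mul]
    norm_num
  have hT : (T A).map (Int.castRingHom ℚ) = L4.map (Int.castRingHom ℚ) * (C (1 / 2 : ℚ) * P) := by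
    calc (T A).map (Int.castRingHom ℚ) = (C (1 / 2 : ℚ) * C 2) * (T A).map (Int.castRingHom ℚ) := by
          rw [hhalf, one_mul]
      _ = C (1 / 2 : ℚ) * (C 2 * (T A).map (Int.castRingHom ℚ)) := by ring
      _ = _ := by rw [← hP]; ring
  obtain ⟨F, hF⟩ := (Polynomial.map_dvd_map (Int.castRingHom ℚ)
    (RingHom.injective_int (Int.castRingHom ℚ)) monic_L4).1 ⟨_, hT⟩
  have hFP : F.map (Int.castRingHom ℚ) = C (1 / 2 : ℚ) * P := by
    rw [hF, Polynomial.map_mul] at hT
    exact mul_left_cancel₀ hm0 hT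
  have hT0 : T A ≠ 0 := by
    intro h
    have := natDegree_T hA
    rw [h, natDegree_zero] at this
    omega
  have hF0 : F ≠ 0 := by
    rintro rfl
    rw [mul_zero] at hF
    exact hT0 hF
  have hFd : F.natDegree ≠ 0 := by
    have h1 := congrArg natDegree hF
    rw [natDegree_T hA, natDegree_mul monic_L4.ne_zero hF0, natDegree_L4] at h1
    omega
  have hFl : F.leadingCoeff = A := by
    have h1 := congrArg leadingCoeff hF
    rw [lead_T hA, leadingCoeff_mul, monic_L4.leadingCoeff, one_mul] at h1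
    exact h1.symm
  have hprim : ∀ c : ℤ, C c ∣ F → IsUnit c := fun c hc =>
    prim_T hA (hc.trans ⟨L4, by rw [hF, mul_comm]⟩)
  have hirrF : ¬ Irreducible F := by
    intro h
    have h1 := (IsPrimitive.Int.irreducible_iff_irreducible_map_cast hprim).1 h
    rw [hFP] at h1
    have hu : IsUnit (C (1 / 2 : ℚ) : ℚ[X]) := IsUnit.of_mul_eq_one _ hhalf
    exact hirr ((irreducible_isUnit_mul hu).1 h1)
  have hnu : ¬ IsUnit F := fun h => hFd (natDegree_eq_zero_of_isUnit h)
  rw [irreducible_iff] at hirrF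
  push Not at hirrF
  obtain ⟨a, b, hab, ha, hb⟩ := hirrF hnu
  have hdeg : ∀ k : ℤ[X], k ∣ F → ¬ IsUnit k → 0 < k.natDegree := by
    intro k hk hk'
    by_contra hc
    have hd : k.natDegree = 0 := by omega
    rw [eq_C_of_natDegree_eq_zero hd] at hk hk'
    exact hk' (isUnit_C.2 (hprim _ hk))
  have hda := hdeg a ⟨b, hab⟩ ha
  have hdb := hdeg b ⟨a, by rw [hab, mul_comm]⟩ hb
  have hl : a.leadingCoeff * b.leadingCoeff = A := by
    rw [← leadingCoeff_mul, ← hab, hFl]
  have hpos : 0 < a.leadingCoeff * b.leadingCoeff := by rw [hl]; linarith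
  rcases pos_and_pos_or_neg_and_neg_of_mul_pos hpos with ⟨h1, h2⟩ | ⟨h1, h2⟩
  · exact ⟨a, b, by rw [← hab]; exact hF.symm, hda, hdb, h1, h2⟩
  · refine ⟨-a, -b, by rw [neg_mul_neg, ← hab]; exact hF.symm, ?_, ?_, ?_, ?_⟩
    · rw [natDegree_neg]; exact hda
    · rw [natDegree_neg]; exact hdb
    · rw [leadingCoeff_neg]; linarith
    · rw [leadingCoeff_neg]; linarith

end Pool.Agent.L7h76.TN
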